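import Pool.Agent.Work.MP_6985d1_gg.Interface

/-!
# Block ERR
-/

set_option autoImplicit false

namespace GrigGrowth.helper85

open GrigGrowth Equiv

theorem Rsum_nonneg (D : ℕ) (P : List (Option ℕ)) : 0 ≤ Rsum D P := by
  unfold Rsum
  refine List.sum_nonneg ?_
  intro x hx
  obtain ⟨i, -, rfl⟩ := List.mem_map.1 hx
  refine Finset.sum_nonneg ?_
  intro v _
  unfold rr
  split_ifs <;> norm_num

theorem rr_c_le (D : ℕ) (v : List Bool) (hv : v ∈ vs D) :
    rr [.c] v ≤ if v = oo D then 1 else 0 := by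
  have hl : v.length = D := by simpa using hv
  unfold rr
  by_cases h : v = oo D
  · rw [if_pos h]
    split_ifs <;> norm_num
  · have h1 : ph .b [.c] v = 0 := by
      simp only [ph, W_nil, Perm.coe_one, id_eq, hl, zero_add]
      exact if_neg h
    rw [if_pos h1, if_neg h]

/-- Block ERR. -/
theorem stmt_ERR (hREC : Stmt_REC) (hJLEN : Stmt_JLEN) (hJSPEC : Stmt_JSPEC) (hJLT : Stmt_JLT)
    (hGEO : Stmt_GEO) : Stmt_ERR := by
  intro M
  have key : ∀ m, m ≤ M →
      (∀ f : List Bool → ℝ, (∀ v, 0 ≤ f v) → TT (dep M) (prog M m) f ≤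
        (1 + (∑ i ∈ Finset.range m, ((1 : ℝ) / 2) ^ ((M - i) / 24)) / 4096) *
          ∑ v ∈ vs (dep M), f v) ∧
      Rsum (dep M) (prog M m) ≤
        2 ^ m * (1 + (∑ i ∈ Finset.range m, ((1 : ℝ) / 2) ^ ((M - i) / 24)) / 4096) ∧
      Err (dep M) (prog M m) ≤
        2 ^ m * ((∑ i ∈ Finset.range m, ((1 : ℝ) / 2) ^ ((M - i) / 24)) / 2048) := by
    intro m
    induction m with
    | zero =>
      intro _
      refine ⟨?_, ?_, ?_⟩
      · intro f hf
        simp only [prog, TT, Kop, List.map_nil, Finset.range_zero, Finset.sum_empty, zero_div,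
          add_zero, one_mul]
        exact Finset.single_le_sum (f := f) (fun v _ => hf v) (by simp)
      · simp only [prog, Rsum, List.map_cons, List.map_nil, List.sum_cons, List.sum_nil, iw,
          Finset.range_zero, Finset.sum_empty, zero_div, add_zero, pow_zero, mul_one]
        calc ∑ v ∈ vs (dep M), rr [.c] v
            ≤ ∑ v ∈ vs (dep M), (if v = oo (dep M) then (1 : ℝ) else 0) :=
              Finset.sum_le_sum fun v hv => rr_c_le (dep M) v hv
          _ ≤ 1 := by
              rw [Finset.sum_ite_eq']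
              split_ifs <;> norm_num
      · simp [prog, Err, eh]
    | succ m ih =>
      intro hm
      obtain ⟨ihT, ihR, ihE⟩ := ih (by omega)
      have hmM : m < M := by omega
      rw [Finset.sum_range_succ]
      set A : ℝ := ∑ i ∈ Finset.range m, ((1 : ℝ) / 2) ^ ((M - i) / 24) with hA
      set a : ℝ := ((1 : ℝ) / 2) ^ ((M - m) / 24) with ha
      have hA0 : 0 ≤ A := Finset.sum_nonneg fun i _ => by positivity
      have ha0 : 0 ≤ a := by positivity
      have hA48 : A ≤ 48 := by
        refine le_trans ?_ (hGEO M)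
        refine Finset.sum_le_sum_of_subset_of_nonneg ?_ fun i _ _ => by positivity
        exact Finset.range_subset_range.2 (by omega)
      have hrec := hREC (dep M) M m (fun j hj => (hJLT M m hmM j hj).2) (1 + A / 4096)
        (by positivity) ihT
      obtain ⟨r1, r2, r3⟩ := hrec
      have hq : a * 2 ^ ((M - m) / 24) = 1 := by
        rw [ha, ← mul_pow]
        norm_num
      have h2 : (2 : ℝ) ^ m / 2 ^ (JJ M m).length ≤ a / 4096 := by
        have hlen := hJLEN M m hmM
        rw [div_le_div_iff₀ (by positivity) (by norm_num)]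
        have h3 : (2 : ℝ) ^ (m + (M - m) / 24 + 12) ≤ 2 ^ (JJ M m).length :=
          pow_le_pow_right₀ (by norm_num) hlen
        have h4 : (2 : ℝ) ^ (m + (M - m) / 24 + 12) = 2 ^ m * 2 ^ ((M - m) / 24) * 4096 := by
          rw [pow_add, pow_add]
          norm_num
        calc (2 : ℝ) ^ m * 4096 = a * (2 ^ m * 2 ^ ((M - m) / 24) * 4096) := by
              linear_combination (-(2 ^ m * 4096 : ℝ)) * hq
          _ ≤ a * 2 ^ (JJ M m).length := by
              rw [← h4]
              exact mul_le_mul_of_nonneg_left h3 ha0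
      have h3 : Rsum (dep M) ((JJ M m).map some) ≤ 2 ^ m * (a / 4096) := by
        have h4 := hJSPEC (dep M) M m hmM le_rfl
        have h5 : (2 : ℝ) ^ ((M - m) / 24 + 12) ≤ 2 ^ (3 * ((M - m) / 24) + 12) :=
          pow_le_pow_right₀ (by norm_num) (by omega)
        have h6 := mul_le_mul_of_nonneg_left h5 (Rsum_nonneg (dep M) ((JJ M m).map some))
        have h7 : (2 : ℝ) ^ ((M - m) / 24 + 12) = 2 ^ ((M - m) / 24) * 4096 := by
          rw [pow_add]
          norm_num
        have h8 : Rsum (dep M) ((JJ M m).map some) * (2 ^ ((M - m) / 24) * 4096) ≤ 2 ^ m := by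
          rw [← h7]
          exact h6.trans h4
        have h9 := mul_le_mul_of_nonneg_left h8 ha0
        have h10 : a * (Rsum (dep M) ((JJ M m).map some) * (2 ^ ((M - m) / 24) * 4096)) =
            Rsum (dep M) ((JJ M m).map some) * 4096 := by
          linear_combination (Rsum (dep M) ((JJ M m).map some) * 4096) * hq
        rw [h10] at h9
        linarith
      have hS2 : 1 + A / 4096 ≤ 2 := by linarith
      have h2m : (0 : ℝ) < 2 ^ m := by positivity
      refine ⟨?_, ?_, ?_⟩
      · intro f hf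
        refine (r1 f hf).trans ?_
        have h4 : 0 ≤ ∑ v ∈ vs (dep M), f v := Finset.sum_nonneg fun v _ => hf v
        refine mul_le_mul_of_nonneg_right ?_ h4
        linarith
      · rw [r3]
        have h4 : (2 : ℝ) ^ (m + 1) = 2 * 2 ^ m := by ring
        rw [h4]
        have h5 : 0 ≤ 2 ^ m * (a / 4096) := by positivity
        calc 2 * Rsum (dep M) (prog M m) + Rsum (dep M) ((JJ M m).map some)
            ≤ 2 * (2 ^ m * (1 + A / 4096)) + 2 ^ m * (a / 4096) := by linarith
          _ ≤ 2 * (2 ^ m * (1 + A / 4096)) + 2 * (2 ^ m * (a / 4096)) := by linarith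
          _ = 2 * 2 ^ m * (1 + (A + a) / 4096) := by ring
      · refine r2.trans ?_
        have h4 : (2 : ℝ) ^ (m + 1) = 2 * 2 ^ m := by ring
        rw [h4]
        have h5 : (1 + A / 4096) * Rsum (dep M) ((JJ M m).map some) ≤ 2 * (2 ^ m * (a / 4096)) :=
          mul_le_mul hS2 h3 (Rsum_nonneg _ _) (by norm_num)
        have h6 : Rsum (dep M) (prog M m) ≤ 2 ^ m * 2 :=
          ihR.trans (mul_le_mul_of_nonneg_left hS2 h2m.le)
        have h7 : 2 ^ m / 2 ^ (JJ M m).length * Rsum (dep M) (prog M m) ≤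
            (a / 4096) * (2 ^ m * 2) :=
          mul_le_mul h2 h6 (Rsum_nonneg _ _) (by positivity)
        calc 2 * Err (dep M) (prog M m) + (1 + A / 4096) * Rsum (dep M) ((JJ M m).map some) +
              2 ^ m / 2 ^ (JJ M m).length * Rsum (dep M) (prog M m)
            ≤ 2 * (2 ^ m * (A / 2048)) + 2 * (2 ^ m * (a / 4096)) + (a / 4096) * (2 ^ m * 2) := by
              linarith
          _ = 2 * 2 ^ m * ((A + a) / 2048) := by ring
  have h1 := (key M le_rfl).2.2
  refine h1.trans ?_
  have h2 := hGEO M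
  have h3 : (0 : ℝ) < 2 ^ M := by positivity
  have h4 : (∑ i ∈ Finset.range M, ((1 : ℝ) / 2) ^ ((M - i) / 24)) / 2048 ≤ 1 / 32 := by linarith
  calc (2 : ℝ) ^ M * ((∑ i ∈ Finset.range M, ((1 : ℝ) / 2) ^ ((M - i) / 24)) / 2048)
      ≤ 2 ^ M * (1 / 32) := mul_le_mul_of_nonneg_left h4 h3.le
    _ = 2 ^ M / 32 := by ring

end GrigGrowth.helper85
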