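import Pool.Agent.Work.MP_6985d1_gg.Interface

/-!
# Block REC
-/

set_option autoImplicit false

namespace GrigGrowth.helper85

open GrigGrowth Equiv

theorem Kop_append (P Q : List (List L)) (f : List Bool → ℝ) :
    Kop (P ++ Q) f = Kop P (Kop Q f) := by
  induction P with
  | nil => rfl
  | cons u P ih => funext v; simp only [List.cons_append, Kop, ih]

theorem Kop_mono (D : ℕ) (P : List (List L)) (f g : List Bool → ℝ)
    (h : ∀ v ∈ vs D, f v ≤ g v) : ∀ v ∈ vs D, Kop P f v ≤ Kop P g v := by
  induction P with
  | nil => exact h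
  | cons u P ih =>
    intro v hv
    have hv' : W u v ∈ vs D := by simpa using hv
    have h1 := ih v hv
    have h2 := ih _ hv'
    simp only [Kop]
    linarith

theorem Kop_const (P : List (List L)) (c : ℝ) (v : List Bool) : Kop P (fun _ => c) v = c := by
  induction P generalizing v with
  | nil => rfl
  | cons u P ih => simp only [Kop, ih]; ring

theorem Kop_nonneg (P : List (List L)) (f : List Bool → ℝ) (h : ∀ v, 0 ≤ f v) :
    ∀ v, 0 ≤ Kop P f v := by
  induction P with
  | nil => exact h
  | cons u P ih =>
    intro v
    have h1 := ih v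
    have h2 := ih (W u v)
    simp only [Kop]
    linarith

theorem sum_W (D : ℕ) (u : List L) (g : List Bool → ℝ) :
    ∑ v ∈ vs D, g (W u v) = ∑ v ∈ vs D, g v := by
  refine Finset.sum_equiv (W u) ?_ ?_
  · intro v
    simp
  · intro v _
    rfl

theorem sum_Kop (D : ℕ) (P : List (List L)) (f : List Bool → ℝ) :
    ∑ v ∈ vs D, Kop P f v = ∑ v ∈ vs D, f v := by
  induction P with
  | nil => rfl
  | cons u P ih =>
    simp only [Kop]
    rw [← Finset.sum_div, Finset.sum_add_distrib, sum_W D u (Kop P f), ih]
    ring

theorem eh_append (P Q : List (List L)) (v : List Bool) :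
    eh (P ++ Q) v = eh P v + Kop P (eh Q) v := by
  induction P generalizing v with
  | nil => simp [eh, Kop]
  | cons u P ih => simp only [List.cons_append, eh, Kop, ih]; ring

theorem rr_nonneg (u : List L) (v : List Bool) : 0 ≤ rr u v := by
  unfold rr; split_ifs <;> norm_num

theorem eh_nonneg (P : List (List L)) (v : List Bool) : 0 ≤ eh P v := by
  induction P generalizing v with
  | nil => simp [eh]
  | cons u P ih =>
    have h1 := ih v
    have h2 := ih (W u v)
    have h3 := rr_nonneg u v
    simp only [eh]
    linarith

theorem sum_eh (D : ℕ) (P : List (List L)) :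
    ∑ v ∈ vs D, eh P v = (P.map fun u => ∑ v ∈ vs D, rr u v).sum := by
  induction P with
  | nil => simp [eh]
  | cons u P ih =>
    simp only [eh, List.map_cons, List.sum_cons]
    rw [Finset.sum_add_distrib, ← Finset.sum_div, Finset.sum_add_distrib, sum_W D u (eh P), ih]
    ring

theorem TT_append (D : ℕ) (P Q : List (Option ℕ)) (f : List Bool → ℝ) :
    TT D (P ++ Q) f = TT D P (Kop (Q.map iw) f) + TT D Q f := by
  induction P with
  | nil => simp [TT]
  | cons i P ih =>
    cases i with
    | none =>
      simp only [List.cons_append, TT, ih, List.map_append, Kop_append]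
      ring
    | some j => simp only [List.cons_append, TT, ih]

theorem Err_append (D : ℕ) (P Q : List (Option ℕ)) :
    Err D (P ++ Q) = Err D P + TT D P (eh (Q.map iw)) + Err D Q := by
  induction P with
  | nil => simp [TT, Err]
  | cons i P ih =>
    cases i with
    | none =>
      simp only [List.cons_append, TT, Err, ih, List.map_append, eh_append]
      ring
    | some j => simp only [List.cons_append, TT, Err, ih]

theorem TT_some (D : ℕ) (J : List ℕ) (f : List Bool → ℝ) : TT D (J.map some) f = 0 := by
  induction J with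
  | nil => rfl
  | cons j J ih => simpa only [List.map_cons, TT] using ih

theorem Err_some (D : ℕ) (J : List ℕ) : Err D (J.map some) = 0 := by
  induction J with
  | nil => rfl
  | cons j J ih => simpa only [List.map_cons, Err] using ih

theorem TT_le (D : ℕ) (P : List (Option ℕ)) (f : List Bool → ℝ) (c : ℝ)
    (h : ∀ v ∈ vs D, f v ≤ c) : TT D P f ≤ slots P * c := by
  induction P with
  | nil => simp [TT, slots]
  | cons i P ih =>
    cases i with
    | none =>
      have h1 := Kop_mono D (P.map iw) f (fun _ => c) h (oo D) (by simp)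
      rw [Kop_const] at h1
      have h2 : (slots (none :: P) : ℝ) = slots P + 1 := by
        simp [slots]
      simp only [TT]
      rw [h2]
      linarith
    | some j =>
      have h2 : (slots (some j :: P) : ℝ) = slots P := by
        simp [slots]
      simp only [TT]
      rw [h2]
      exact ih

theorem slots_prog (M m : ℕ) : slots (prog M m) = 2 ^ m := by
  induction m with
  | zero => simp [prog, slots]
  | succ m ih =>
    have h1 : ∀ J : List ℕ, (J.map some).count none = 0 := by
      intro J
      rw [List.count_eq_zero]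
      simp
    simp only [prog, slots, List.count_append] at ih ⊢
    rw [h1, ih]
    ring

theorem JJ_pairwise (M m : ℕ) : (JJ M m).Pairwise (· < ·) := by
  unfold JJ
  exact List.Pairwise.filter _ List.pairwise_lt_range

theorem map_iw_some (J : List ℕ) : (J.map some).map iw = J.map fl := by
  rw [List.map_map]
  rfl

theorem Rsum_append (D : ℕ) (P Q : List (Option ℕ)) :
    Rsum D (P ++ Q) = Rsum D P + Rsum D Q := by
  simp [Rsum]

theorem sum_eh_iw (D : ℕ) (P : List (Option ℕ)) :
    ∑ v ∈ vs D, eh (P.map iw) v = Rsum D P := by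
  rw [sum_eh, List.map_map]
  rfl

/-- Block REC. -/
theorem stmt_REC (hS : Stmt_SMO) : Stmt_REC := by
  intro D M m hJ S hS0 hT
  have hsm : ∀ f : List Bool → ℝ, (∀ v, 0 ≤ f v) →
      TT D (prog M m) (Kop (((JJ M m).map some).map iw) f) ≤
        2 ^ m / 2 ^ (JJ M m).length * ∑ v ∈ vs D, f v := by
    intro f hf
    have h1 := TT_le D (prog M m) (Kop (((JJ M m).map some).map iw) f)
      ((∑ v ∈ vs D, f v) / 2 ^ (JJ M m).length) (by
        intro v hv
        rw [map_iw_some]
        exact hS D (JJ M m) (JJ_pairwise M m) hJ f hf v hv)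
    rw [slots_prog] at h1
    refine h1.trans (le_of_eq ?_)
    push_cast
    ring
  refine ⟨?_, ?_, ?_⟩
  · intro f hf
    have h1 := hsm (Kop ((prog M m).map iw) f) (Kop_nonneg _ f hf)
    rw [sum_Kop] at h1
    have h2 := hT f hf
    simp only [prog]
    rw [TT_append, TT_append, TT_some]
    have h3 : (S + 2 ^ m / 2 ^ (JJ M m).length) * ∑ v ∈ vs D, f v =
      S * ∑ v ∈ vs D, f v + 2 ^ m / 2 ^ (JJ M m).length * ∑ v ∈ vs D, f v := by ring
    rw [h3]
    linarith
  · have h1 := hsm (eh ((prog M m).map iw)) (eh_nonneg _)
    rw [sum_eh_iw] at h1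
    have h2 := hT (eh (((JJ M m).map some).map iw)) (eh_nonneg _)
    rw [sum_eh_iw] at h2
    simp only [prog]
    rw [Err_append, Err_append, Err_some, TT_append, TT_some]
    linarith
  · simp only [prog]
    rw [Rsum_append, Rsum_append]
    ring

end GrigGrowth.helper85
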