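import Pool.Agent.Work.MP_6985d1_gg.Interface

/-!
# Block UP: the upper bound
-/

set_option autoImplicit false

namespace GrigGrowth.helper85

open GrigGrowth Equiv

/-! ## Relations -/

theorem act_rel (v : List Bool) :
    act .b (act .c v) = act .d v ∧ act .c (act .b v) = act .d v ∧
    act .c (act .d v) = act .b v ∧ act .d (act .c v) = act .b v ∧
    act .b (act .d v) = act .c v ∧ act .d (act .b v) = act .c v := by
  induction v with
  | nil => simp
  | cons x v ih =>
    obtain ⟨h1, h2, h3, h4, h5, h6⟩ := ih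
    cases x <;> simp [act, act_act, h1, h2, h3, h4, h5, h6]

/-- The product of two different letters outside `a`. -/
def third : L → L → L
  | .b, .c => .d
  | .c, .b => .d
  | .c, .d => .b
  | .d, .c => .b
  | .b, .d => .c
  | .d, .b => .c
  | _, _ => .b

theorem gen_third (s t : L) (hs : s ≠ .a) (ht : t ≠ .a) (hst : s ≠ t) :
    gen s * gen t = gen (third s t) := by
  ext1 v
  obtain ⟨h1, h2, h3, h4, h5, h6⟩ := act_rel v
  cases s <;> cases t <;> simp_all [third]

theorem third_ne (s t : L) (hs : s ≠ .a) (ht : t ≠ .a) (hst : s ≠ t) : third s t ≠ .a := by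
  cases s <;> cases t <;> simp_all [third]

/-! ## Weights -/

/-- Weights of letters. -/
def wl (η : ℝ) : L → ℝ
  | .a => 1 - η ^ 3
  | .b => η ^ 3
  | .c => 1 - η ^ 2
  | .d => 1 - η

/-- Weight of a word. -/
def wt (η : ℝ) (w : List L) : ℝ := (w.map (wl η)).sum

structure Good (η : ℝ) : Prop where
  eq : η ^ 3 + η ^ 2 + η = 2
  lo : 4 / 5 ≤ η
  hi : η ≤ 5 / 6

theorem Good.wl_ge {η : ℝ} (h : Good η) (s : L) : 1 / 6 ≤ wl η s := by
  obtain ⟨h1, h2, h3⟩ := h
  have h4 : η ^ 2 ≤ (5 / 6) ^ 2 := pow_le_pow_left₀ (by linarith) h3 2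
  have h5 : η ^ 3 ≤ (5 / 6) ^ 3 := pow_le_pow_left₀ (by linarith) h3 3
  have h6 : (4 / 5 : ℝ) ^ 3 ≤ η ^ 3 := pow_le_pow_left₀ (by norm_num) h2 3
  cases s <;> simp only [wl] <;> nlinarith

theorem Good.wl_le {η : ℝ} (h : Good η) (s : L) : wl η s ≤ 1 := by
  obtain ⟨h1, h2, h3⟩ := h
  have h4 : 0 ≤ η ^ 2 := by positivity
  have h6 : (4 / 5 : ℝ) ^ 3 ≤ η ^ 3 := pow_le_pow_left₀ (by norm_num) h2 3
  have h5 : η ^ 3 ≤ (5 / 6) ^ 3 := pow_le_pow_left₀ (by linarith) h3 3
  cases s <;> simp only [wl] <;> nlinarith

theorem Good.third_le {η : ℝ} (h : Good η) (s t : L) (hs : s ≠ .a) (ht : t ≠ .a) (hst : s ≠ t) :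
    wl η (third s t) ≤ wl η s + wl η t := by
  have hη := h
  obtain ⟨h1, h2, h3⟩ := h
  have hb := hη.wl_ge .b
  have hc := hη.wl_ge .c
  have hd := hη.wl_ge .d
  simp only [wl] at hb hc hd
  cases s <;> cases t <;> simp_all only [third, wl] <;> first | nlinarith | simp_all

theorem wt_cons (η : ℝ) (s : L) (w : List L) : wt η (s :: w) = wl η s + wt η w := by
  simp [wt]

theorem wt_append (η : ℝ) (u w : List L) : wt η (u ++ w) = wt η u + wt η w := by
  simp [wt]

theorem Good.wt_ge {η : ℝ} (h : Good η) (w : List L) : (w.length : ℝ) ≤ 6 * wt η w := by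
  induction w with
  | nil => simp [wt]
  | cons s w ih =>
    have := h.wl_ge s
    rw [wt_cons]
    push_cast [List.length_cons]
    linarith

theorem Good.wt_nonneg {η : ℝ} (h : Good η) (w : List L) : 0 ≤ wt η w := by
  have h1 := h.wt_ge w
  have h2 : (0 : ℝ) ≤ w.length := by positivity
  linarith

theorem Good.wt_le {η : ℝ} (h : Good η) (w : List L) : wt η w ≤ w.length := by
  induction w with
  | nil => simp [wt]
  | cons s w ih =>
    have := h.wl_le s
    rw [wt_cons]
    push_cast [List.length_cons]
    linarith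

/-! ## Reduced words -/

/-- Reduced words: exactly one of any two neighbours is `a`. -/
def Red : List L → Prop
  | [] => True
  | [_] => True
  | s :: t :: w => ((s = .a ∧ t ≠ .a) ∨ (s ≠ .a ∧ t = .a)) ∧ Red (t :: w)

theorem Red.tail {s : L} {w : List L} (h : Red (s :: w)) : Red w := by
  cases w with
  | nil => trivial
  | cons t w => exact h.2

theorem Red.congr {s t : L} {w : List L} (hs : s ≠ .a) (ht : t ≠ .a) (h : Red (s :: w)) :
    Red (t :: w) := by
  cases w with
  | nil => trivial
  | cons u w =>
    obtain ⟨h1, h2⟩ := h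
    refine ⟨?_, h2⟩
    rcases h1 with ⟨h3, _⟩ | ⟨_, h3⟩
    · exact absurd h3 hs
    · exact Or.inr ⟨ht, h3⟩

theorem exists_red {η : ℝ} (hη : Good η) (w : List L) :
    ∃ w', W w' = W w ∧ wt η w' ≤ wt η w ∧ Red w' := by
  induction w with
  | nil => exact ⟨[], rfl, le_rfl, trivial⟩
  | cons s w ih =>
    obtain ⟨w', h1, h2, h3⟩ := ih
    cases w' with
    | nil =>
      refine ⟨[s], ?_, ?_, trivial⟩
      · rw [W_cons, W_cons, h1]
      · rw [wt_cons, wt_cons]; linarith
    | cons t w1 =>
      by_cases hs : s = .a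
      · by_cases ht : t = .a
        · refine ⟨w1, ?_, ?_, h3.tail⟩
          · rw [W_cons, ← h1, W_cons, ← mul_assoc, hs, ht, gen_mul_self, one_mul]
          · have h4 := hη.wl_ge s
            have h5 := hη.wl_ge t
            rw [wt_cons] at h2 ⊢
            linarith
        · refine ⟨s :: t :: w1, ?_, ?_, Or.inl ⟨hs, ht⟩, h3⟩
          · rw [W_cons s (t :: w1), W_cons s w, h1]
          · rw [wt_cons η s (t :: w1), wt_cons η s w]; linarith
      · by_cases ht : t = .a
        · refine ⟨s :: t :: w1, ?_, ?_, Or.inr ⟨hs, ht⟩, h3⟩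
          · rw [W_cons s (t :: w1), W_cons s w, h1]
          · rw [wt_cons η s (t :: w1), wt_cons η s w]; linarith
        · by_cases hst : s = t
          · refine ⟨w1, ?_, ?_, h3.tail⟩
            · rw [W_cons, ← h1, W_cons, ← mul_assoc, hst, gen_mul_self, one_mul]
            · have h4 := hη.wl_ge s
              have h5 := hη.wl_ge t
              rw [wt_cons] at h2 ⊢
              linarith
          · refine ⟨third s t :: w1, ?_, ?_, Red.congr ht (third_ne s t hs ht hst) h3⟩
            · rw [W_cons, W_cons, ← h1, W_cons, ← mul_assoc, gen_third s t hs ht hst]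
            · have h4 := hη.third_le s t hs ht hst
              rw [wt_cons] at h2
              rw [wt_cons, wt_cons]
              linarith

/-- The number of letters outside `a`. -/
def cn : List L → ℕ
  | [] => 0
  | .a :: w => cn w
  | _ :: w => cn w + 1

theorem cn_le (w : List L) (h : Red w) :
    cn w ≤ w.count .a + 1 ∧ ((∀ s ∈ w.head?, s = L.a) → cn w ≤ w.count .a) := by
  induction w with
  | nil => simp [cn]
  | cons s w ih =>
    have ih' := ih h.tail
    by_cases hs : s = .a
    · subst hs
      simp only [cn, List.count_cons_self]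
      exact ⟨by omega, fun _ => by omega⟩
    · have h1 : cn (s :: w) = cn w + 1 := by
        cases s <;> simp_all [cn]
      have h2 : (s :: w).count .a = w.count .a := by
        rw [List.count_cons_of_ne]
        simpa using hs
      rw [h1, h2]
      have h3 : ∀ t ∈ w.head?, t = L.a := by
        intro t ht
        cases w with
        | nil => simp at ht
        | cons u w =>
          simp only [List.head?_cons, Option.mem_def, Option.some.injEq] at ht
          subst ht
          rcases h.1 with ⟨h4, _⟩ | ⟨_, h4⟩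
          · exact absurd h4 hs
          · exact h4
      have h4 := ih'.2 h3
      refine ⟨by omega, ?_⟩
      intro h5
      exact absurd (h5 s (by simp)) hs

theorem fbw_true (w : List L) : fbw w true = !(fbw w false) := by
  induction w with
  | nil => rfl
  | cons s w ih => cases s <;> simp [fbw, fb, ih]

theorem wt_sl {η : ℝ} (hη : Good η) (s : L) :
    wt η (sl s false) + wt η (sl s true) = if s = .a then 0 else η * (wl η .a + wl η s) := by
  have h1 := hη.eq
  cases s <;> simp [sl, wt, wl]
  · linear_combination -h1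
  · linear_combination (η - 1) * h1
  · linear_combination η * h1

theorem wt_sec {η : ℝ} (hη : Good η) (w : List L) :
    wt η (sec w false) + wt η (sec w true) =
      η * (wt η w + (cn w - w.count .a) * wl η .a) := by
  induction w with
  | nil => simp [sec, wt, cn]
  | cons s w ih =>
    simp only [sec, wt_append]
    have h1 : wt η (sl s (fbw w false)) + wt η (sl s (fbw w true)) =
        wt η (sl s false) + wt η (sl s true) := by
      rw [fbw_true]
      cases fbw w false
      · rfl
      · rw [add_comm]; rfl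
    have h2 := wt_sl hη s
    have h3 : wt η (sec w false) + wt η (sec w true) + (wt η (sl s false) + wt η (sl s true)) =
      η * (wt η (s :: w) + (cn (s :: w) - (s :: w).count .a) * wl η .a) := by
      rw [ih, h2, wt_cons]
      by_cases hs : s = .a
      · subst hs
        simp only [cn, List.count_cons_self, if_true]
        push_cast
        ring
      · have h4 : cn (s :: w) = cn w + 1 := by
          cases s <;> simp_all [cn]
        have h5 : (s :: w).count .a = w.count .a := by
          rw [List.count_cons_of_ne]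
          simpa using hs
        rw [h4, h5, if_neg hs]
        push_cast
        ring
    linarith

theorem wt_sec_le {η : ℝ} (hη : Good η) (w : List L) (h : Red w) :
    wt η (sec w false) + wt η (sec w true) ≤ η * (wt η w + wl η .a) := by
  rw [wt_sec hη]
  have h1 := (cn_le w h).1
  have h2 : (cn w : ℝ) - w.count .a ≤ 1 := by
    have : (cn w : ℝ) ≤ w.count .a + 1 := by exact_mod_cast h1
    linarith
  have h3 := hη.wl_ge .a
  have h4 : (cn w - w.count .a : ℝ) * wl η .a ≤ 1 * wl η .a :=
    mul_le_mul_of_nonneg_right h2 (by linarith)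
  have h5 : 0 ≤ η := by linarith [hη.lo]
  refine mul_le_mul_of_nonneg_left ?_ h5
  linarith

/-! ## Lists of group elements -/

/-- Lists of `m` elements with total weight at most `R`. -/
def T (η : ℝ) (m : ℕ) (R : ℝ) : Set (List (List Bool → List Bool)) :=
  {gs | ∃ ws : List (List L), ws.length = m ∧ (ws.map (wt η)).sum ≤ R ∧
    gs = ws.map fun w => ⇑(W w)}

/-- Decoding of lists of words. -/
def dec : List (Option L) → List (List L)
  | [] => [[]]
  | none :: c => [] :: dec c
  | some s :: c => match dec c with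
    | [] => [[s]]
    | w :: ws => (s :: w) :: ws

theorem dec_append (w : List L) (c : List (Option L)) :
    dec (w.map some ++ none :: c) = w :: dec c := by
  induction w with
  | nil => rfl
  | cons s w ih =>
    simp only [List.map_cons, List.cons_append, dec, ih]

/-- Coding of lists of words. -/
def enc (ws : List (List L)) : List (Option L) := ws.flatMap fun w => w.map some ++ [none]

theorem dec_enc (ws : List (List L)) (c : List (Option L)) : dec (enc ws ++ c) = ws ++ dec c := by
  induction ws with
  | nil => rfl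
  | cons w ws ih =>
    have h1 : enc (w :: ws) ++ c = w.map some ++ none :: (enc ws ++ c) := by
      simp [enc]
    rw [h1, dec_append, ih]
    rfl

theorem enc_length {η : ℝ} (hη : Good η) (ws : List (List L)) :
    ((enc ws).length : ℝ) ≤ 6 * (ws.map (wt η)).sum + ws.length := by
  induction ws with
  | nil => simp [enc]
  | cons w ws ih =>
    have h1 : enc (w :: ws) = (w.map some ++ [none]) ++ enc ws := by
      simp [enc]
    have h2 := hη.wt_ge w
    rw [h1]
    simp only [List.length_append, List.length_map, List.length_cons, List.length_nil,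
      List.map_cons, List.sum_cons]
    push_cast
    linarith

theorem ncard_lists (α : Type) [Fintype α] (n : ℕ) :
    {l : List α | l.length = n}.ncard = Fintype.card α ^ n := by
  rw [← card_vector n, ← Nat.card_eq_fintype_card]
  rfl

theorem T_card {η : ℝ} (hη : Good η) (m : ℕ) (R : ℝ) (Q : ℕ) (hQ : 6 * R + m ≤ Q) :
    (T η m R).Finite ∧ (T η m R).ncard ≤ 5 ^ Q := by
  have hfin : {c : List (Option L) | c.length = Q}.Finite := by
    have : Fintype L := ⟨⟨{.a, .b, .c, .d}, by decide⟩, by intro s; cases s <;> decide⟩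
    exact List.finite_length_eq (Option L) Q
  have hcard : {c : List (Option L) | c.length = Q}.ncard = 5 ^ Q := by
    let : Fintype L := ⟨⟨{.a, .b, .c, .d}, by decide⟩, by intro s; cases s <;> decide⟩
    rw [ncard_lists (Option L) Q]
    rfl
  have hsub : T η m R ⊆ (fun c => ((dec c).take m).map fun w => ⇑(W w)) ''
      {c : List (Option L) | c.length = Q} := by
    rintro gs ⟨ws, h1, h2, rfl⟩
    have h3 := enc_length hη ws
    have h4 : (enc ws).length ≤ Q := by
      have : ((enc ws).length : ℝ) ≤ Q := by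
        rw [h1] at h3
        linarith
      exact_mod_cast this
    refine ⟨enc ws ++ List.replicate (Q - (enc ws).length) none, ?_, ?_⟩
    · simp only [Set.mem_ofPred_eq, List.length_append, List.length_replicate]
      omega
    · simp only [dec_enc]
      rw [← h1, List.take_left']
      rfl
  refine ⟨(hfin.image _).subset hsub, ?_⟩
  calc (T η m R).ncard ≤ _ := Set.ncard_le_ncard hsub (hfin.image _)
    _ ≤ {c : List (Option L) | c.length = Q}.ncard := Set.ncard_image_le hfin
    _ = 5 ^ Q := hcard

theorem T_finite {η : ℝ} (hη : Good η) (m : ℕ) (R : ℝ) : (T η m R).Finite := by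
  obtain ⟨Q, hQ⟩ := exists_nat_ge (6 * R + m)
  exact (T_card hη m R Q hQ).1

theorem T_mono {η : ℝ} (hη : Good η) (m : ℕ) {R R' : ℝ} (h : R ≤ R') :
    (T η m R).ncard ≤ (T η m R').ncard := by
  refine Set.ncard_le_ncard ?_ (T_finite hη m R')
  rintro gs ⟨ws, h1, h2, h3⟩
  exact ⟨ws, h1, h2.trans h, h3⟩

/-- Reconstruction. -/
def recon : List Bool → List (List Bool → List Bool) → List (List Bool → List Bool)
  | β :: bs, g0 :: g1 :: gs =>
    (fun v => match v with
      | [] => []
      | false :: v => β :: g0 v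
      | true :: v => (!β) :: g1 v) :: recon bs gs
  | _, _ => []

theorem recon_spec (ws : List (List L)) :
    recon (ws.map fun w => fbw w false)
      ((ws.flatMap fun w => [sec w false, sec w true]).map fun w => ⇑(W w)) =
    ws.map fun w => ⇑(W w) := by
  induction ws with
  | nil => rfl
  | cons w ws ih =>
    simp only [List.map_cons, List.flatMap_cons, List.cons_append, List.nil_append, recon]
    rw [ih]
    congr 1
    funext v
    match v with
    | [] => simp
    | false :: v => simp [W_apply_cons]
    | true :: v => simp [W_apply_cons, fbw_true]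

theorem exists_red_list {η : ℝ} (hη : Good η) (ws : List (List L)) :
    ∃ ws' : List (List L), ws'.length = ws.length ∧
      (ws'.map fun w => (⇑(W w) : List Bool → List Bool)) = (ws.map fun w => ⇑(W w)) ∧
      (ws'.map (wt η)).sum ≤ (ws.map (wt η)).sum ∧ ∀ w ∈ ws', Red w := by
  induction ws with
  | nil => exact ⟨[], rfl, rfl, le_rfl, by simp⟩
  | cons w ws ih =>
    obtain ⟨ws', h1, h2, h3, h4⟩ := ih
    obtain ⟨w', h5, h6, h7⟩ := exists_red hη w
    refine ⟨w' :: ws', by simp [h1], by simp [h2, h5], ?_, ?_⟩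
    · simp only [List.map_cons, List.sum_cons]; linarith
    · intro u hu
      rcases List.mem_cons.1 hu with rfl | hu
      · exact h7
      · exact h4 u hu

theorem sec_list {η : ℝ} (hη : Good η) (ws : List (List L)) (h : ∀ w ∈ ws, Red w) :
    ((ws.flatMap fun w => [sec w false, sec w true]).map (wt η)).sum ≤
      η * ((ws.map (wt η)).sum + ws.length * wl η .a) := by
  induction ws with
  | nil => simp
  | cons w ws ih =>
    have h1 := ih fun u hu => h u (List.mem_cons_of_mem _ hu)
    have h2 := wt_sec_le hη w (h w List.mem_cons_self)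
    simp only [List.flatMap_cons, List.map_append, List.map_cons, List.map_nil, List.sum_append,
      List.sum_cons, List.sum_nil, List.length_cons]
    push_cast
    linarith

theorem length_flatMap_two (ws : List (List L)) :
    (ws.flatMap fun w => [sec w false, sec w true]).length = 2 * ws.length := by
  induction ws with
  | nil => rfl
  | cons w ws ih =>
    simp only [List.flatMap_cons, List.length_append, List.length_cons, List.length_nil, ih]
    ring

theorem T_step {η : ℝ} (hη : Good η) (m : ℕ) (R : ℝ) :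
    (T η m R).ncard ≤ 2 ^ m * (T η (2 * m) (η * (R + m * wl η .a))).ncard := by
  have hfinT := T_finite hη (2 * m) (η * (R + m * wl η .a))
  have hfinB : {l : List Bool | l.length = m}.Finite := List.finite_length_eq Bool m
  have hsub : T η m R ⊆ (fun p : List Bool × List (List Bool → List Bool) => recon p.1 p.2) ''
      ({l : List Bool | l.length = m} ×ˢ T η (2 * m) (η * (R + m * wl η .a))) := by
    rintro gs ⟨ws, h1, h2, rfl⟩
    obtain ⟨ws', h3, h4, h5, h6⟩ := exists_red_list hη ws
    refine ⟨(ws'.map fun w => fbw w false,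
      (ws'.flatMap fun w => [sec w false, sec w true]).map fun w => ⇑(W w)), ⟨?_, ?_⟩, ?_⟩
    · simp only [Set.mem_ofPred_eq, List.length_map]
      rw [h3, h1]
    · refine ⟨_, ?_, ?_, rfl⟩
      · rw [length_flatMap_two, h3, h1]
      · refine (sec_list hη ws' h6).trans ?_
        have h7 : 0 ≤ η := by linarith [hη.lo]
        refine mul_le_mul_of_nonneg_left ?_ h7
        rw [h3, h1]
        linarith
    · simp only []
      rw [recon_spec, h4]
  calc (T η m R).ncard ≤ _ := Set.ncard_le_ncard hsub ((hfinB.prod hfinT).image _)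
    _ ≤ ({l : List Bool | l.length = m} ×ˢ T η (2 * m) (η * (R + m * wl η .a))).ncard :=
        Set.ncard_image_le (hfinB.prod hfinT)
    _ = 2 ^ m * (T η (2 * m) (η * (R + m * wl η .a))).ncard := by
        rw [Set.ncard_prod, ncard_lists Bool m, Fintype.card_bool]

theorem T_iter {η : ℝ} (hη : Good η) (k m : ℕ) (R : ℝ) :
    (T η m R).ncard ≤ 2 ^ (m * 2 ^ k) * (T η (2 ^ k * m) (η ^ k * R + m * 2 ^ k)).ncard := by
  have key : (T η m R).ncard * 2 ^ m ≤
      2 ^ (m * 2 ^ k) * (T η (2 ^ k * m) (η ^ k * R + m * 2 ^ k)).ncard := by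
    induction k with
    | zero =>
      have h1 : (T η m R).ncard ≤ (T η (2 ^ 0 * m) (η ^ 0 * R + m * 2 ^ 0)).ncard := by
        rw [pow_zero, one_mul, pow_zero, one_mul]
        refine T_mono hη m ?_
        have : (0 : ℝ) ≤ m := by positivity
        simpa using this
      calc (T η m R).ncard * 2 ^ m ≤ (T η (2 ^ 0 * m) (η ^ 0 * R + m * 2 ^ 0)).ncard * 2 ^ m :=
            Nat.mul_le_mul_right _ h1
        _ = _ := by rw [mul_comm, pow_zero 2, mul_one]
    | succ k ih =>
      have h1 := T_step hη (2 ^ k * m) (η ^ k * R + m * 2 ^ k)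
      have h2 : (T η (2 * (2 ^ k * m)) (η * (η ^ k * R + m * 2 ^ k +
          ((2 ^ k * m : ℕ) : ℝ) * wl η .a))).ncard ≤
          (T η (2 ^ (k + 1) * m) (η ^ (k + 1) * R + m * 2 ^ (k + 1))).ncard := by
        have h3 : 2 * (2 ^ k * m) = 2 ^ (k + 1) * m := by ring
        rw [h3]
        refine T_mono hη _ ?_
        have h4 := hη.wl_le .a
        have h5 := hη.hi
        have h6 := hη.lo
        have h7 : (0 : ℝ) ≤ m * 2 ^ k := by positivity
        have h8 : η * (1 + wl η .a) ≤ 2 := by nlinarith [hη.wl_ge .a]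
        push_cast
        have h9 : η * (η ^ k * R + m * 2 ^ k + 2 ^ k * m * wl η .a) =
          η ^ (k + 1) * R + (m * 2 ^ k) * (η * (1 + wl η .a)) := by ring
        rw [h9]
        have h10 : (m * 2 ^ k : ℝ) * (η * (1 + wl η .a)) ≤ (m * 2 ^ k) * 2 :=
          mul_le_mul_of_nonneg_left h8 h7
        have h11 : (m : ℝ) * 2 ^ (k + 1) = (m * 2 ^ k) * 2 := by ring
        rw [h11]
        linarith
      calc (T η m R).ncard * 2 ^ m
          ≤ 2 ^ (m * 2 ^ k) * (T η (2 ^ k * m) (η ^ k * R + m * 2 ^ k)).ncard := ih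
        _ ≤ 2 ^ (m * 2 ^ k) * (2 ^ (2 ^ k * m) *
            (T η (2 ^ (k + 1) * m) (η ^ (k + 1) * R + m * 2 ^ (k + 1))).ncard) :=
          Nat.mul_le_mul_left _ (h1.trans (Nat.mul_le_mul_left _ h2))
        _ = _ := by
          rw [← mul_assoc, ← pow_add]
          congr 2
          ring
  calc (T η m R).ncard ≤ (T η m R).ncard * 2 ^ m := Nat.le_mul_of_pos_right _ (by positivity)
    _ ≤ _ := key

theorem good_of_root {l : ℝ} (h : IsRoot l) (h1 : 2.46 < l) (h2 : l < 2.47) : Good (2 / l) := by
  obtain ⟨h3, h4⟩ := h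
  refine ⟨?_, ?_, ?_⟩
  · field_simp
    linear_combination (-1) * h4
  · rw [div_le_div_iff₀ (by norm_num) h3]
    linarith
  · rw [div_le_div_iff₀ h3 (by norm_num)]
    linarith

theorem root_bounds {l : ℝ} (h : IsRoot l) : 2.46 < l ∧ l < 2.47 := by
  obtain ⟨h1, h2⟩ := h
  constructor
  · by_contra hcon
    push Not at hcon
    nlinarith [sq_nonneg l, mul_nonneg h1.le (sub_nonneg.2 hcon), mul_nonneg (sq_nonneg l) (sub_nonneg.2 hcon)]
  · by_contra hcon
    push Not at hcon
    nlinarith [sq_nonneg l, mul_nonneg h1.le (sub_nonneg.2 hcon), mul_nonneg (sq_nonneg l) (sub_nonneg.2 hcon)]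

/-- Block UP. -/
theorem stmt_UP : Stmt_UP := by
  intro l hl
  obtain ⟨hb1, hb2⟩ := root_bounds hl
  have hη := good_of_root hl hb1 hb2
  set η := 2 / l with hηdef
  refine ⟨40, ?_⟩
  intro k n hn
  have hl0 := hl.1
  have h1 : (ball n).ncard ≤ (T η 1 n).ncard := by
    have h2 : (fun g : Perm (List Bool) => [(⇑g : List Bool → List Bool)]) '' ball n ⊆ T η 1 n := by
      rintro _ ⟨g, ⟨w, hw, rfl⟩, rfl⟩
      refine ⟨[w], rfl, ?_, rfl⟩
      have h3 := hη.wt_le w
      have h4 : (w.length : ℝ) ≤ n := by exact_mod_cast hw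
      simp only [List.map_cons, List.map_nil, List.sum_cons, List.sum_nil]
      linarith
    have h3 : Function.Injective
        (fun g : Perm (List Bool) => [(⇑g : List Bool → List Bool)]) := by
      intro g g' hgg
      simp only [List.cons.injEq, and_true] at hgg
      exact DFunLike.coe_injective hgg
    rw [← Set.ncard_image_of_injective (ball n) h3]
    exact Set.ncard_le_ncard h2 (T_finite hη 1 n)
  have h2 := T_iter hη k 1 n
  have h3 : η ^ k * n ≤ 2 ^ k := by
    have h4 : η ^ k * l ^ k = 2 ^ k := by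
      rw [← mul_pow, hηdef, div_mul_cancel₀ _ hl0.ne']
    have h5 : 0 ≤ η ^ k := by
      have : 0 ≤ η := by linarith [hη.lo]
      positivity
    calc η ^ k * n ≤ η ^ k * l ^ k := mul_le_mul_of_nonneg_left hn h5
      _ = 2 ^ k := h4
  have h4 := (T_card hη (2 ^ k * 1) (η ^ k * n + (1 : ℕ) * 2 ^ k) (13 * 2 ^ k) (by
    push_cast
    linarith)).2
  calc (ball n).ncard ≤ (T η 1 n).ncard := h1
    _ ≤ 2 ^ (1 * 2 ^ k) * (T η (2 ^ k * 1) (η ^ k * n + (1 : ℕ) * 2 ^ k)).ncard := h2
    _ ≤ 2 ^ (1 * 2 ^ k) * 5 ^ (13 * 2 ^ k) := Nat.mul_le_mul_left _ h4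
    _ ≤ 2 ^ (1 * 2 ^ k) * (2 ^ 3) ^ (13 * 2 ^ k) :=
        Nat.mul_le_mul_left _ (Nat.pow_le_pow_left (by norm_num) _)
    _ = 2 ^ (40 * 2 ^ k) := by
        rw [← pow_mul, ← pow_add]
        congr 1
        ring

end GrigGrowth.helper85
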